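import Mathlib
import Pool.Agent.H.MP_2e25e6_lc.Main

set_option autoImplicit false

namespace Pool.Agent.Results.MP_2e25e6_lc.NoMeasurableKernel

open MeasureTheory

/-- The space `2^{F_n}` of configurations on the free group `F_n` with basis `a_1, ..., a_n`. -/
abbrev Config (n : ℕ) := FreeGroup (Fin n) → Bool

/-- The Bernoulli shift action `(g · x)(h) = x(hg)`. -/
def act {n : ℕ} (g : FreeGroup (Fin n)) (x : Config n) : Config n := fun h => x (h * g)

/-- The free part of the action: the points with trivial stabiliser. -/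
def freePart (n : ℕ) : Set (Config n) := {x | ∀ g : FreeGroup (Fin n), g ≠ 1 → act g x ≠ x}

/-- The arcs `x → a_i · x` of the directed Schreier graph. -/
def Arc {n : ℕ} (x y : Config n) : Prop := ∃ i : Fin n, y = act (FreeGroup.of i) x

/-- The Bernoulli measure: the product over `F_n` of the uniform measure on `{0,1}`. -/
noncomputable def bernoulli (n : ℕ) : Measure (Config n) :=
  Measure.infinitePi (fun _ : FreeGroup (Fin n) => (PMF.uniformOfFintype Bool).toMeasure)

/-- Borel sets of the product topology. -/
def IsBorel {n : ℕ} (s : Set (Config n)) : Prop := @MeasurableSet (Config n) (borel (Config n)) s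

/-- `A` is a kernel of the directed graph induced on `Y`: it is independent in the underlying graph
and every vertex of `Y` outside `A` has an out-neighbour in `A`. -/
def IsKernel {n : ℕ} (Y A : Set (Config n)) : Prop :=
  A ⊆ Y ∧ (∀ x ∈ A, ∀ y ∈ A, ¬ (Arc x y ∨ Arc y x)) ∧ ∀ x ∈ Y, x ∉ A → ∃ y ∈ A, Arc x y

/-- For every `n ≥ 2` the directed Schreier graph of the Bernoulli shift of the free group `F_n`
has no measurable kernel: there are no conull shift-invariant Borel set `Y` inside the free part
and Borel set `A ⊆ Y` such that `A` is a kernel of the induced directed graph on `Y`. -/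
theorem result : ∀ n : ℕ, 2 ≤ n → ¬ ∃ Y A : Set (Config n),
    IsBorel Y ∧ (∀ (g : FreeGroup (Fin n)), ∀ x ∈ Y, act g x ∈ Y) ∧ Y ⊆ freePart n ∧
      bernoulli n Y = 1 ∧ IsBorel A ∧ IsKernel Y A := by
  rintro n hn ⟨Y, A, hY, hinv, _, hmu, hA, hAY, hind, habs⟩
  have hYm : MeasurableSet Y := by
    rw [BorelSpace.measurable_eq (α := Config n)]
    exact hY
  have hAm : MeasurableSet A := by
    rw [BorelSpace.measurable_eq (α := Config n)]
    exact hA
  have hprob : IsProbabilityMeasure (bernoulli n) := by
    unfold bernoulli; infer_instance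
  have hae : ∀ᵐ x ∂(bernoulli n), x ∈ Y := (mem_ae_iff_prob_eq_one hYm).2 hmu
  refine Pool.Agent.H.MP_2e25e6_lc.main hn A hAm ?_
  have hb : Pool.Agent.H.MP_2e25e6_lc.mu0 n = bernoulli n := rfl
  rw [hb]
  filter_upwards [hae] with x hx
  constructor
  · intro hxA i hi
    exact hind x hxA _ hi (Or.inl ⟨i, rfl⟩)
  · intro h
    by_contra hxA
    obtain ⟨y, hyA, i, rfl⟩ := habs x hx hxA
    exact h i hyA

end Pool.Agent.Results.MP_2e25e6_lc.NoMeasurableKernel
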